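import Pool.Agent.TH706.CQ.Main

/-!
# Randomness with `O(1)` queries cannot be removed in time `k n`, even with a stack

For every `k` there is a promise problem on `n` bits which randomised algorithms solve with
one-sided error `1 / 3`, with `O(log n)` random bits and a constant number of queries.  We show
that deterministic programs with linear memory (`n / D` bits) and a stack (pushdown store) of
unlimited height, with any number of steps, cannot solve it with at most `k n` queries.  With
polynomially many nodes and steps such programs contain (non-uniform) logarithmic space, and
without a bound on the queries and steps they decide all of P (Cook 1971).  More generally, the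
programs may use any number of random bits, which are chosen in the beginning, if the error is
one-sided on the other side; the success probability may be as small as `2 ^ (- n / D)` (so `n / D`
nondeterministic guesses do not help either). The problem: to distinguish the assignments which
satisfy a formula (random clauses of constant width) from the assignments which violate a constant
fraction of its clauses. There is also one sequence of formulas for all `k`, with `h n` in place of
the constants, where `h` tends to infinity as slowly as one likes.

The starting result `ConstantQueries` is the case of one deterministic program without a stack and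
a fixed `k`; its formulas are used. The functions of the starting result `OnePassVersusStack` are
defined on all inputs, but their randomised programs read the whole input (in one pass); for
functions defined on all inputs a constant number of queries would be useless. The computations
with a stack are cut into pieces with `Pool.Agent.W896.PD.blocks`, their queries are counted with
`Pool.Agent.W902.PDS.Clock`.
-/

set_option autoImplicit false

namespace Pool.Agent.Results.MP_92893d_lc.ConstantQueriesStack

open Filter Pool.Agent.H554R2.Sem Pool.Agent.H554R2.Coin Pool.Agent.H554R2.Cnf
open Pool.Agent.W896.PD (PP)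

/-- The number of the clauses `T j` which are violated by `x`. -/
noncomputable def violated {n J : ℕ} (T : Fin J → Finset (Fin n × Bool)) (x : Pt n) : ℕ :=
  Nat.card {j // ¬ Sat (T j) x}

/-- There are `J ≤ D n` clauses of at most `D` literals and randomised tests with `D`-bounded
resources: for every `ω` (a sequence of `2 D` of the numbers `0, ..., J - 1`) there is a
deterministic program `U ω` without a stack, with at most `9 D ^ 2` nodes, which makes at most
`2 D ^ 2` queries on every input. If `x` satisfies all the clauses, then all the programs `U ω`
output `true` on `x`.  If `x` violates at least `J / D` of the clauses, then at most one third of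
them do so. -/
def Tests {n J : ℕ} (T : Fin J → Finset (Fin n × Bool)) (D : ℕ) : Prop :=
  0 < J ∧ J ≤ D * n ∧ (∀ j, (T j).card ≤ D) ∧
    ∃ U : (Fin (2 * D) → Fin J) → BP (Fin n) Bool,
      (∀ ω, Fintype.card (U ω).State ≤ 9 * D ^ 2 ∧
        ∀ x, ∃ (l : List (Fin n)) (b : Bool), l.length ≤ 2 * D ^ 2 ∧ (U ω).Comp x l b) ∧
      (∀ x, (∀ j, Sat (T j) x) → ∀ ω, ∃ l, (U ω).Comp x l true) ∧
      (∀ x, J ≤ D * violated T x → 3 * Nat.card {ω // ∃ l, (U ω).Comp x l true} ≤ J ^ (2 * D))

/-- Take any nonempty finite family of deterministic programs `P ω` with an unlimited stack and at
most `2 ^ (n / D)` nodes, none of which accepts within `t` queries (and any number of pushes and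
pops) an input which violates at least `J / D` of the clauses. Then there is an input which
satisfies all the clauses and is accepted within `t` queries by fewer than a `2 ^ (- n / D)`
fraction of the programs. -/
def StackFails {n J : ℕ} (T : Fin J → Finset (Fin n × Bool)) (D t : ℕ) : Prop :=
  ∀ (Ω : Type) [Fintype Ω] (P : Ω → PP (Fin n) Bool), 0 < Fintype.card Ω →
    (∀ ω, Fintype.card (P ω).State ≤ 2 ^ (n / D)) →
    (∀ x, J ≤ D * violated T x → ∀ ω, ¬ ∃ l, (P ω).Comp x l true ∧ l.length ≤ t) →
    ∃ x, (∀ j, Sat (T j) x) ∧
      2 ^ (n / D) * Nat.card {ω // ∃ l, (P ω).Comp x l true ∧ l.length ≤ t} < Fintype.card Ω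

/-- 1. For every `k` there is a constant `D` such that for all `n ≥ D` there are clauses which are
tested by randomised programs with at most `2 D ^ 2` queries, but not by programs with an unlimited
stack, at most `2 ^ (n / D)` nodes and at most `k n` queries.

2. For every function `h` which tends to infinity, there is one sequence of lists of clauses for
which this holds for all `k` and all large `n`, with `h n` in place of `D`. -/
theorem result :
    (∀ k : ℕ, ∃ D : ℕ, 0 < D ∧ ∀ n ≥ D, ∃ (J : ℕ) (T : Fin J → Finset (Fin n × Bool)),
      Tests T D ∧ ∀ t ≤ k * n, StackFails T D t) ∧
    ∀ h : ℕ → ℕ, Tendsto h atTop atTop →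
      ∃ (J : ℕ → ℕ) (T : ∀ n, Fin (J n) → Finset (Fin n × Bool)), ∀ k : ℕ, ∃ N, ∀ n ≥ N,
        Tests (T n) (h n) ∧ ∀ t ≤ k * n, StackFails (T n) (h n) t := by
  constructor
  · intro k
    obtain ⟨D, hD, h⟩ := Pool.Agent.TH706.CQ.fixed k
    refine ⟨D, hD, fun n hn => ?_⟩
    obtain ⟨J, T, h1, h2⟩ := h n hn
    exact ⟨J, T, h1, fun t ht => Pool.Agent.TH706.CQ.family (h2 t ht)⟩
  · intro h hh
    obtain ⟨J, T, hT⟩ := Pool.Agent.TH706.CQ.uniform h hh
    refine ⟨J, T, fun k => ?_⟩
    obtain ⟨N, hN⟩ := hT k
    exact ⟨N, fun n hn => ⟨(hN n hn).1, fun t ht =>
      Pool.Agent.TH706.CQ.family ((hN n hn).2 t ht)⟩⟩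

end Pool.Agent.Results.MP_92893d_lc.ConstantQueriesStack
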