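import Pool.Agent.TH679.RW.Main

/-!
# Estimating the acceptance probability of randomized logspace machines with few registers

A randomized machine with `d` bits of memory is at each time in one of the `2 ^ d` states; it tosses
a coin and shifts the result into its memory (so the transitions are the edges of the layered De
Bruijn graph, two from each state at each time). The probabilities of the transitions depend on the
time and on the state; they are the input. In each state they may sum up to less than `1`; with the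
remaining probability the machine stops and rejects. It accepts if it survives `T` steps.

Programs work step by step with nonnegative real numbers in a few registers, with the operations
`+`, `*` and `max`; a step also can load an input or a constant. With `2 * 2 ^ d + 1` registers one
can compute the acceptance probability exactly. We show that `2 ^ ((1 - ε) d)` registers are not
even enough for an estimate within an arbitrarily bad factor, if the number of steps is polynomial
in the number `2 ^ d` of the states, already if only `T = O(d)` coins are tossed (where the constant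
depends on `ε` and on the exponent of the polynomial): a program whose result is `0` if the
acceptance probability is `0`, and at least `c` times the acceptance probability otherwise (for some
`c > 0`, which may depend on the program), needs more. There is no condition from above on the
result.

Put the probability `t` on the transitions of one path and `0` elsewhere: then the acceptance
probability is of the order `t ^ T` for small `t`; and the result vanishes if no path is left. So the
program must produce exactly the monomial of each path, and each monomial which it produces contains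
the monomial of a path. This is all that is used in the recursion over intervals of time and windows
of coins of `Pool/Agent/TH679/DB`.
-/

set_option autoImplicit false

namespace Pool.Agent.Results.MP_92893d_lc.KilledWalkRegisters

open Filter
open Pool.Agent.TH679.DB
open Pool.Agent.TH679.RW
open scoped NNReal

theorem rpow_two {a : ℝ} (d : ℕ) : ((2 : ℝ) ^ d) ^ a = (2 : ℝ) ^ (a * d) := by
  rw [← Real.rpow_natCast, ← Real.rpow_mul (by norm_num), mul_comm]

theorem card_trans {T d : ℕ} (hd : 1 ≤ d) :
    Fintype.card (Trans T d) ≤ 2 * (T * 2 ^ d) := by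
  classical
  rw [← Finset.card_univ, Finset.card_eq_sum_card_fiberwise
    (f := fun e : Trans T d => (e.1.1, e.1.2.1)) (t := (Finset.univ : Finset (Fin T × Word 2 d)))
    (fun _ _ => Finset.mem_coe.2 (Finset.mem_univ _))]
  have h1 : ∀ b ∈ (Finset.univ : Finset (Fin T × Word 2 d)),
      (Finset.univ.filter fun e : Trans T d => (e.1.1, e.1.2.1) = b).card ≤ 2 := by
    intro b _
    refine le_trans (Finset.card_le_card ?_) (outE_le hd b.1 b.2)
    intro e he
    have h2 := (Finset.mem_filter.1 he).2
    refine Finset.mem_filter.2 ⟨Finset.mem_univ _, ?_, ?_⟩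
    · exact congrArg Prod.fst h2
    · exact congrArg Prod.snd h2
  refine (Finset.sum_le_card_nsmul _ _ 2 h1).trans (le_of_eq ?_)
  rw [Finset.card_univ, Fintype.card_prod, Fintype.card_fin, card_word, smul_eq_mul, mul_comm]

theorem card_trans_pos {T d : ℕ} (hT : 1 ≤ T) : 1 ≤ Fintype.card (Trans T d) :=
  Fintype.card_pos_iff.2 ⟨pe (cp T d (fun _ => 0)) ⟨0, hT⟩⟩

/-- (1) The law: if `T ≥ d n`, `n, d ≥ 1`, then a program with the registers `ρ` which estimates the
probability of survival satisfies `(2 ^ d) ^ κ ≤ 2 * steps * ((⌈log₂ steps⌉ + 1) * registers) ^ κ`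
with `κ = ⌈log₄ (n + 3)⌉ - 1`.

(2) For all `a` and `ε > 0` there is `C` such that for all `d ≥ C` and all `T ≥ C d` each program
with at most `(2 ^ d) ^ a` steps which estimates the probability of survival has more than
`(2 ^ d) ^ (1 - ε)` registers.

(3) For `T = C d` the same holds with `n ^ (1 - ε)` registers and `n ^ a` steps, where `n` is the
number of the inputs (two for each state and time).

(4) For each `ε` there is `c > 0` such that for all large `d` and `T = d ⌈2 ^ (ε d / 2)⌉`, with
`N = (T + 1) 2 ^ d`, programs which estimate the probability of survival with at most `N ^ (1 - ε)`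
registers have at least `N ^ (c log₂ N)` steps.

(5) For all `d ≥ 1` and `T` there is a program with `2 * 2 ^ d + 1` registers and at most
`7 T 2 ^ d + 3 * 2 ^ d + 4` steps which computes the probability of survival. -/
theorem result :
    (∀ (T d n : ℕ), 1 ≤ n → 1 ≤ d → d * n ≤ T →
      ∀ (ρ : Type) [Fintype ρ] [DecidableEq ρ] (o : ρ) (p : List (Step (Trans T d) ρ)),
        Estimates p o → (2 ^ d) ^ (Nat.clog 4 (n + 3) - 1) ≤ 2 * p.length *
          ((Nat.clog 2 p.length + 1) * Fintype.card ρ) ^ (Nat.clog 4 (n + 3) - 1)) ∧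
    (∀ a ε : ℝ, 0 < ε → ∃ C : ℕ, ∀ d ≥ C, ∀ T ≥ C * d,
      ∀ (ρ : Type) [Fintype ρ] [DecidableEq ρ] (o : ρ) (p : List (Step (Trans T d) ρ)),
        Estimates p o → (p.length : ℝ) ≤ (2 ^ d : ℝ) ^ a →
          (2 ^ d : ℝ) ^ (1 - ε) < Fintype.card ρ) ∧
    (∀ a ε : ℝ, 0 < ε → ∃ C : ℕ, ∀ᶠ d : ℕ in atTop,
      ∀ (ρ : Type) [Fintype ρ] [DecidableEq ρ] (o : ρ) (p : List (Step (Trans (C * d) d) ρ)),
        Estimates p o → (p.length : ℝ) ≤ (Fintype.card (Trans (C * d) d) : ℝ) ^ a →
          (Fintype.card (Trans (C * d) d) : ℝ) ^ (1 - ε) < Fintype.card ρ) ∧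
    (∀ ε : ℝ, 0 < ε → ε ≤ 1 → ∃ c : ℝ, 0 < c ∧ ∀ᶠ d : ℕ in atTop, ∀ T N : ℕ,
      T = d * ⌈(2 : ℝ) ^ (ε / 2 * d)⌉₊ → N = (T + 1) * 2 ^ d →
      ∀ (ρ : Type) [Fintype ρ] [DecidableEq ρ] (o : ρ) (p : List (Step (Trans T d) ρ)),
        Estimates p o → (Fintype.card ρ : ℝ) ≤ (N : ℝ) ^ (1 - ε) →
          (N : ℝ) ^ (c * Real.logb 2 N) ≤ p.length) ∧
    (∀ T d : ℕ, 1 ≤ d →
      ∃ (ρ : Type) (_ : Fintype ρ) (_ : DecidableEq ρ) (o : ρ) (p : List (Step (Trans T d) ρ)),
        Fintype.card ρ = 2 * 2 ^ d + 1 ∧ p.length ≤ 7 * T * 2 ^ d + 3 * 2 ^ d + 4 ∧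
        ∀ w : Trans T d → ℝ≥0, value w p o = survival w) := by
  refine ⟨?_, ?_, ?_, ?_, ?_⟩
  · intro T d n hn hd hT ρ _ _ o p h
    exact (law_est hn hd hT p o h).2
  · intro a ε hε
    obtain ⟨q, d₀, hq, hmain⟩ := regs_const (le_max_right a 1) (lt_min hε one_pos)
      (min_le_right ε 1)
    refine ⟨max q d₀ + 1, fun d hd T hT ρ _ _ o p h hL => ?_⟩
    have hd1 : 1 ≤ d := by omega
    have hT' : d * q ≤ T := by
      refine le_trans ?_ hT
      rw [mul_comm]
      exact Nat.mul_le_mul_right _ (by omega)
    obtain ⟨h1, h2⟩ := law_est hq hd1 hT' p o h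
    have hK : 1 ≤ Fintype.card ρ := Fintype.card_pos_iff.2 ⟨o⟩
    have h3 := hmain d (by omega) _ _ h1 hK (by
      refine hL.trans ?_
      rw [rpow_two]
      exact Real.rpow_le_rpow_of_exponent_le (by norm_num)
        (mul_le_mul_of_nonneg_right (le_max_left _ _) (Nat.cast_nonneg _))) h2
    refine lt_of_le_of_lt ?_ h3
    rw [rpow_two]
    exact Real.rpow_le_rpow_of_exponent_le (by norm_num)
      (mul_le_mul_of_nonneg_right (by linarith [min_le_left ε 1]) (Nat.cast_nonneg _))
  · intro a ε hε
    obtain ⟨a', ha'⟩ : ∃ a', a' = max a 1 := ⟨_, rfl⟩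
    obtain ⟨ε', hε'⟩ : ∃ ε', ε' = min ε 1 := ⟨_, rfl⟩
    have ha1 : 1 ≤ a' := by rw [ha']; exact le_max_right _ _
    have hε0 : 0 < ε' := by rw [hε']; exact lt_min hε one_pos
    have hε1 : ε' ≤ 1 := by rw [hε']; exact min_le_right _ _
    obtain ⟨q, d₀, hq, hmain⟩ := regs_const (a := 2 * a') (ε := ε' / 2) (by linarith)
      (by linarith) (by linarith)
    obtain ⟨d₁, hd₁⟩ := eventually_small (a := 2 * q) (ε := 2 * ε') (by linarith)
    refine ⟨q, ?_⟩
    filter_upwards [eventually_ge_atTop (max (max d₀ d₁) 1)] with d hd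
    intro ρ _ _ o p h hL
    have hd0 : d₀ ≤ d := (le_max_left _ _).trans ((le_max_left _ _).trans hd)
    have hd1' : d₁ ≤ d := (le_max_right _ _).trans ((le_max_left _ _).trans hd)
    have hd1 : 1 ≤ d := (le_max_right _ _).trans hd
    obtain ⟨h1, h2⟩ := law_est hq hd1 (le_of_eq (mul_comm _ _)) p o h
    have hK : 1 ≤ Fintype.card ρ := Fintype.card_pos_iff.2 ⟨o⟩
    obtain ⟨n, hn⟩ : ∃ n, n = Fintype.card (Trans (q * d) d) := ⟨_, rfl⟩
    rw [← hn] at hL ⊢
    have hn1 : (1 : ℝ) ≤ n := by
      have : 1 ≤ n := by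
        rw [hn]
        exact card_trans_pos (Nat.mul_pos hq hd1)
      exact_mod_cast this
    have hnle : (n : ℝ) ≤ (2 : ℝ) ^ ((1 + ε' / 2) * d) := by
      have e1 : n ≤ 2 * (q * d * 2 ^ d) := by
        rw [hn]
        exact card_trans hd1
      have e2 : (n : ℝ) ≤ 2 * (q * d * 2 ^ d) := by exact_mod_cast e1
      have e3 := hd₁ d hd1'
      have e4 : (2 : ℝ) ^ ((1 + ε' / 2) * d) = (2 : ℝ) ^ (2 * ε' / 4 * d) * 2 ^ d := by
        rw [← Real.rpow_natCast 2 d, ← Real.rpow_add (by norm_num)]
        congr 1
        ring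
      rw [e4]
      refine e2.trans ?_
      have e5 : (2 : ℝ) * (q * d * 2 ^ d) = 2 * q * d * 2 ^ d := by ring
      rw [e5]
      exact mul_le_mul_of_nonneg_right (by linarith) (by positivity)
    have h3 := hmain d hd0 _ _ h1 hK (by
      refine hL.trans ?_
      calc (n : ℝ) ^ a ≤ (n : ℝ) ^ a' :=
            Real.rpow_le_rpow_of_exponent_le hn1 (by rw [ha']; exact le_max_left _ _)
        _ ≤ ((2 : ℝ) ^ ((1 + ε' / 2) * d)) ^ a' :=
            Real.rpow_le_rpow (by linarith) hnle (by linarith)
        _ = (2 : ℝ) ^ ((1 + ε' / 2) * d * a') := by rw [← Real.rpow_mul (by norm_num)]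
        _ ≤ _ := by
            refine Real.rpow_le_rpow_of_exponent_le (by norm_num) ?_
            have e1 : (0 : ℝ) ≤ d * a' := by positivity
            nlinarith) h2
    refine lt_of_le_of_lt ?_ h3
    calc (n : ℝ) ^ (1 - ε) ≤ (n : ℝ) ^ (1 - ε') :=
          Real.rpow_le_rpow_of_exponent_le hn1 (by rw [hε']; linarith [min_le_left ε 1])
      _ ≤ ((2 : ℝ) ^ ((1 + ε' / 2) * d)) ^ (1 - ε') :=
          Real.rpow_le_rpow (by linarith) hnle (by linarith)
      _ = (2 : ℝ) ^ ((1 + ε' / 2) * d * (1 - ε')) := by rw [← Real.rpow_mul (by norm_num)]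
      _ ≤ _ := by
          refine Real.rpow_le_rpow_of_exponent_le (by norm_num) ?_
          have e1 : (0 : ℝ) ≤ ε' ^ 2 * d := by positivity
          nlinarith
  · intro ε hε hε1
    obtain ⟨d₀, hd₀⟩ := exists_large ε hε
    refine ⟨ε ^ 2 / 576, by positivity, ?_⟩
    have hlarge : ∀ᶠ d : ℕ in atTop, d₀ ≤ (d : ℝ) :=
      tendsto_natCast_atTop_atTop.eventually_ge_atTop d₀
    filter_upwards [hlarge, eventually_ge_atTop 1] with d hd hd1
    intro T N hT hN ρ _ _ o p h hK
    obtain ⟨n, hn⟩ : ∃ n, n = ⌈(2 : ℝ) ^ (ε / 2 * d)⌉₊ := ⟨_, rfl⟩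
    rw [← hn] at hT
    have hn1 : 1 ≤ n := by
      rw [hn, Nat.one_le_ceil_iff]
      positivity
    obtain ⟨s1, _⟩ := steps_ge hε hε1 hd₀ hd hn (N := N) (by rw [hN, hT])
    obtain ⟨h1, h2⟩ := law_est hn1 hd1 hT.ge p o h
    exact s1 _ _ h1 hK h2
  · intro T d hd
    obtain ⟨p, h1, h2⟩ := upper_est (T := T) hd
    refine ⟨Option (Bool × Word 2 d), inferInstance, inferInstance, none, p, ?_, ?_, h2⟩
    · rw [Fintype.card_option, Fintype.card_prod, Fintype.card_bool, card_word]
    · rw [mul_assoc]
      exact h1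

end Pool.Agent.Results.MP_92893d_lc.KilledWalkRegisters
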