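import Pool.Agent.TH457.HT.EvenLB
import Pool.Agent.TH457.HT.EvenUB
import Pool.Agent.TH457.HT.EvenDet

/-!
# A linear-time one-pass randomized log-space language which is slow without randomness

`AllEven x`: each block value occurs an even number of times among the `N` blocks of `L` bits of
the word `x`.

* One pass of one head and a random point `α` of the field with `2 ^ t` elements suffice: the sum
  of the powers `α ^ (value of the block)` is zero if all multiplicities are even, and otherwise a
  nonzero polynomial of degree less than `2 ^ L` vanishes at `α`.
* Nondeterministic programs with `k` two-way heads which move by at most one position, at most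
  `2 ^ S` configurations and `T` steps satisfy
  `2 ^ L * (N * L) ≤ 301 * (k + S + 1) * (k * T + N * L)`, if `N ≥ 4 ^ L` is even.  (Zones which
  contain the characteristic vectors of sets, with sum zero modulo two; windows whose number of
  steps is the length of a zone; a pair of zones which no window touches together, and of which one
  is touched by few windows; crossing over of computations with the same transcript.)
* This is sharp up to a logarithmic factor, even for deterministic programs with one head.
-/

set_option autoImplicit false

namespace Pool.Agent.Results.MP_92893d_lc.SlowHeadsSeparation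

open Pool.Agent.TH457.HT

/-- (1) A linear-time one-pass randomized program with one head and one-sided error for the words
in which not all multiplicities are even; (2) the lower bound for nondeterministic programs with
slow heads for the words in which all multiplicities are even; (3) a deterministic program which
matches it up to a logarithmic factor. -/
theorem result :
    (∀ N L t : ℕ, 1 ≤ N → 1 ≤ L → 1 ≤ t → ∃ P : Fin (2 ^ t) → DetProg Bool (N * L) 1,
      (∀ ω, Fintype.card (P ω).Q ≤ 2 * 4 ^ t) ∧
      (∀ ω x, (P ω).Answers (N * L) x true ∨ (P ω).Answers (N * L) x false) ∧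
      (∀ ω x, AllEven x → (P ω).Answers (N * L) x true) ∧
      ∀ x, ¬ AllEven x → Nat.card {ω // ¬ (P ω).Answers (N * L) x false} < 2 ^ L) ∧
    (∀ N L k T S : ℕ, Even N → 1 ≤ L → 4 ^ L ≤ N → 1 ≤ k → ∀ P : HeadProg Bool (N * L) k,
      Fintype.card P.Q * (N * L) ^ k ≤ 2 ^ S →
      (∀ x : Fin (N * L) → Bool, P.Accepts x → AllEven x) →
      (∀ x : Fin (N * L) → Bool, AllEven x → P.AcceptsIn T x) →
      2 ^ L * (N * L) ≤ 301 * ((k + S + 1) * (k * T + N * L))) ∧
    (∀ N L : ℕ, 1 ≤ N → 1 ≤ L → ∃ P : DetProg Bool (N * L) 1,
      Fintype.card P.Q ≤ 8 * 2 ^ L * (N * L) ∧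
      ∀ x, (AllEven x → P.Answers (2 * 2 ^ L * (N * L)) x true) ∧
        (¬ AllEven x → P.Answers (2 * 2 ^ L * (N * L)) x false)) :=
  ⟨fun N L t hN hL ht => even_ub N L t hN hL ht,
    fun N L _ T S hN hL h4 hk P hS h1 h2 => even_lb N L hN hL h4 hk P T S hS h1 h2,
    fun N L hN hL => even_det N L hN hL⟩

end Pool.Agent.Results.MP_92893d_lc.SlowHeadsSeparation
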