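import Pool.Agent.TH706.CQ.Zero

/-!
# Zero-error randomness with `O(1)` queries against deterministic linear time with a stack

A promise problem on `2 n` bits: one of the two halves of the input satisfies all the clauses of a
fixed formula (`J ≤ h n` clauses of width at most `h`), the other half violates at least `J / h` of
them; which one?  Zero-error randomised algorithms solve it with `O(log n)` random bits and a
constant number of queries in the worst case: they never err, and they give no answer with
probability at most `1 / 3`.  Deterministic programs which have, besides `n / h` bits of memory, a
stack (pushdown store) of unlimited height, and which always answer after at most `k n` queries (and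
any number of steps), do not solve it.

With polynomially many nodes such programs with a stack have the power of polynomial-size circuits
(Cook), except for the number of the queries.  So in this model randomness cannot be removed, even
if it makes no errors and saves the reading of almost the whole input, not with linear instead of
logarithmic space and a stack for free.  My result `ConstantQueriesStack` for the same question has
randomised algorithms with one-sided error and a lower bound for families of programs; the starting
result `ZeroErrorConstantQueries` of `MP_34c247_lc` is the case of one branching program without a
stack, for each `k` with its own clauses.  Here one sequence of formulas is hard for all `k`.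
-/

set_option autoImplicit false

namespace Pool.Agent.Results.MP_92893d_lc.ZeroErrorStack

open Filter
open Pool.Agent.TH706.CQ (ZeroErr DetFails zero_fixed zero_uniform)

/-- (1) For every `k` there is `D > 0` such that for all `n ≥ D` there are clauses with the
zero-error algorithm (`ZeroErr`), for which deterministic programs with a stack, at most `2 ^ (n / D)`
nodes and `k n` queries fail (`DetFails`).

(2) For every `h` tending to infinity there is one sequence of lists of clauses which does this for
all `k` and all large `n`, with `h n` in place of `D`. -/
theorem result :
    (∀ k : ℕ, ∃ D : ℕ, 0 < D ∧ ∀ n ≥ D, ∃ (J : ℕ) (T : Fin J → Finset (Fin n × Bool)),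
      ZeroErr T D ∧ ∀ t ≤ k * n, DetFails T D t) ∧
    ∀ h : ℕ → ℕ, Tendsto h atTop atTop →
      ∃ (J : ℕ → ℕ) (T : ∀ n, Fin (J n) → Finset (Fin n × Bool)), ∀ k : ℕ, ∃ N, ∀ n ≥ N,
        ZeroErr (T n) (h n) ∧ ∀ t ≤ k * n, DetFails (T n) (h n) t :=
  ⟨zero_fixed, zero_uniform⟩

end Pool.Agent.Results.MP_92893d_lc.ZeroErrorStack
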